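import Pool.Agent.Helper38.IA.St

/-! Module X1 of project IA (crossing degrees). -/

set_option autoImplicit false

namespace Pool.Agent.Helper82.IA38

open Finset Pool.Agent.Helper93.IA Pool.Agent.Helper38.IA

section

variable {α β : Type} [Fintype α] [Fintype β] [DecidableEq α] [DecidableEq β]

private lemma lo1 (A0 A : Finset (α × β)) (U1 : Finset α) (U2 : Finset β) (a : α) (ha : a ∉ U1) :
    U2.card ≤ d1 (crs A U1 U2) a + m1 A0 U2 a + d1 (A0 \ A) a := by
  rw [d1_eq, d1_eq]
  unfold m1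
  refine le_trans (card_le_card (t := (univ.filter fun b => (a, b) ∈ crs A U1 U2) ∪
    (U2.filter fun b => (a, b) ∉ A0) ∪ (univ.filter fun b => (a, b) ∈ A0 \ A)) ?_) ?_
  · intro b hb
    simp only [mem_union, mem_filter, mem_univ, true_and, mem_sdiff, crs]
    by_cases h0 : (a, b) ∈ A0
    · by_cases h1 : (a, b) ∈ A
      · left; left
        exact ⟨h1, fun h => ha (h.mpr hb)⟩
      · right
        exact ⟨h0, h1⟩
    · left; right
      exact ⟨hb, h0⟩
  · exact le_trans (card_union_le _ _) (Nat.add_le_add_right (card_union_le _ _) _)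

private lemma lo2 (A0 A : Finset (α × β)) (U1 : Finset α) (U2 : Finset β) (b : β) (hb : b ∉ U2) :
    U1.card ≤ d2 (crs A U1 U2) b + m2 A0 U1 b + d2 (A0 \ A) b := by
  rw [d2_eq, d2_eq]
  unfold m2
  refine le_trans (card_le_card (t := (univ.filter fun a => (a, b) ∈ crs A U1 U2) ∪
    (U1.filter fun a => (a, b) ∉ A0) ∪ (univ.filter fun a => (a, b) ∈ A0 \ A)) ?_) ?_
  · intro a ha
    simp only [mem_union, mem_filter, mem_univ, true_and, mem_sdiff, crs]
    by_cases h0 : (a, b) ∈ A0
    · by_cases h1 : (a, b) ∈ A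
      · left; left
        exact ⟨h1, fun h => hb (h.mp ha)⟩
      · right
        exact ⟨h0, h1⟩
    · left; right
      exact ⟨ha, h0⟩
  · exact le_trans (card_union_le _ _) (Nat.add_le_add_right (card_union_le _ _) _)

private lemma up1 (A : Finset (α × β)) (U1 : Finset α) (U2 : Finset β) (a : α) (ha : a ∉ U1) :
    d1 (crs A U1 U2) a ≤ U2.card := by
  rw [d1_eq]
  refine card_le_card ?_
  intro b hb
  simp only [mem_filter, mem_univ, true_and, crs] at hb
  by_contra hb2
  exact hb.2 ⟨fun h => absurd h ha, fun h => absurd h hb2⟩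

private lemma up2 (A : Finset (α × β)) (U1 : Finset α) (U2 : Finset β) (b : β) (hb : b ∉ U2) :
    d2 (crs A U1 U2) b ≤ U1.card := by
  rw [d2_eq]
  refine card_le_card ?_
  intro a ha
  simp only [mem_filter, mem_univ, true_and, crs] at ha
  by_contra ha2
  exact ha.2 ⟨fun h => absurd h ha2, fun h => absurd h hb⟩

private lemma li1 (A0 A : Finset (α × β)) (U1 : Finset α) (U2 : Finset β) (a : α) (ha : a ∈ U1) :
    Fintype.card β ≤ d1 (crs A U1 U2) a + U2.card + m1 A0 univ a + d1 (A0 \ A) a := by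
  rw [d1_eq, d1_eq]
  unfold m1
  rw [← card_univ]
  refine le_trans (card_le_card (t := (univ.filter fun b => (a, b) ∈ crs A U1 U2) ∪ U2 ∪
    (univ.filter fun b => (a, b) ∉ A0) ∪ (univ.filter fun b => (a, b) ∈ A0 \ A)) ?_) ?_
  · intro b _
    simp only [mem_union, mem_filter, mem_univ, true_and, mem_sdiff, crs]
    by_cases hb : b ∈ U2
    · left; left; right
      exact hb
    · by_cases h0 : (a, b) ∈ A0
      · by_cases h1 : (a, b) ∈ A
        · left; left; left
          exact ⟨h1, fun h => hb (h.mp ha)⟩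
        · right
          exact ⟨h0, h1⟩
      · left; right
        exact h0
  · exact le_trans (card_union_le _ _) (Nat.add_le_add_right (le_trans (card_union_le _ _)
      (Nat.add_le_add_right (card_union_le _ _) _)) _)

private lemma li2 (A0 A : Finset (α × β)) (U1 : Finset α) (U2 : Finset β) (b : β) (hb : b ∈ U2) :
    Fintype.card α ≤ d2 (crs A U1 U2) b + U1.card + m2 A0 univ b + d2 (A0 \ A) b := by
  rw [d2_eq, d2_eq]
  unfold m2
  rw [← card_univ]
  refine le_trans (card_le_card (t := (univ.filter fun a => (a, b) ∈ crs A U1 U2) ∪ U1 ∪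
    (univ.filter fun a => (a, b) ∉ A0) ∪ (univ.filter fun a => (a, b) ∈ A0 \ A)) ?_) ?_
  · intro a _
    simp only [mem_union, mem_filter, mem_univ, true_and, mem_sdiff, crs]
    by_cases ha : a ∈ U1
    · left; left; right
      exact ha
    · by_cases h0 : (a, b) ∈ A0
      · by_cases h1 : (a, b) ∈ A
        · left; left; left
          exact ⟨h1, fun h => ha (h.mpr hb)⟩
        · right
          exact ⟨h0, h1⟩
      · left; right
        exact h0
  · exact le_trans (card_union_le _ _) (Nat.add_le_add_right (le_trans (card_union_le _ _)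
      (Nat.add_le_add_right (card_union_le _ _) _)) _)

private lemma un1 (A : Finset (α × β)) (a : α) : d1 A a ≤ Fintype.card β := by
  have := d1_add_m1 A a
  omega

private lemma un2 (A : Finset (α × β)) (b : β) : d2 A b ≤ Fintype.card α := by
  have := d2_add_m2 A b
  omega

end

theorem hX1 : StX1 := by
  intro ξ g ρ hξ hξ1 hg hgξ hρ hρ1 α β γ _ _ _ _ _ _ κ n m A0 A B0 B C0 C U1 W1 U2 W2 U3 W3 hκ0 hκ
    hn h
  have hfl : (m : ℝ) ≤ ξ * n := by
    rw [h.hm]
    exact Nat.floor_le (by linarith)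
  have hfu : ξ * n < m + 1 := by
    rw [h.hm]
    exact Nat.lt_floor_add_one _
  have hm999 : (999 : ℝ) < m := by linarith
  have hmn : 999 / 1000 * (ξ * n) ≤ m := by linarith
  have hm0 : (0 : ℝ) ≤ m := by linarith
  have hn0 : (0 : ℝ) ≤ n := Nat.cast_nonneg n
  have hgn : g * n ≤ ξ * n / 5000 := by
    have := mul_le_mul_of_nonneg_right hgξ hn0
    linarith
  have hξn : ξ * n ≤ 1 / 1000 * n := mul_le_mul_of_nonneg_right hξ1 hn0
  have hcoef : κ + ρ / 10000 ≤ 207 / 1000 := by linarith
  have hcm : (κ + ρ / 10000) * m ≤ 207 / 1000 * m := mul_le_mul_of_nonneg_right hcoef hm0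
  have hcn : (κ + ρ / 10000) * n ≤ 207 / 1000 * n := mul_le_mul_of_nonneg_right hcoef hn0
  refine ⟨?_, ?_, ?_⟩
  · have : (0 : ℝ) < m := by linarith
    exact_mod_cast this
  · intro a ha
    have e1 : (U2.card : ℝ) ≤ (d1 (crs A U1 U2) a : ℝ) + m1 A0 U2 a + d1 (A0 \ A) a := by
      exact_mod_cast lo1 A0 A U1 U2 a ha
    have e2 : (U3.card : ℝ) ≤ (d2 (crs C U3 U1) a : ℝ) + m2 C0 U3 a + d2 (C0 \ C) a := by
      exact_mod_cast lo2 C0 C U3 U1 a ha
    have e3 : (d1 (crs A U1 U2) a : ℝ) ≤ U2.card := by exact_mod_cast up1 A U1 U2 a ha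
    have e4 : (d2 (crs C U3 U1) a : ℝ) ≤ U3.card := by exact_mod_cast up2 C U3 U1 a ha
    rw [h.c2] at e1 e3
    rw [h.c3] at e2 e4
    have f1 := (h.nearU.1.1 a (mem_univ a)).2
    have f2 := (h.nearU.2.2.2 a (mem_univ a)).2
    have f3 := h.smA.1 a
    have f4 := h.smC.2 a
    constructor
    · linarith
    · linarith
  · intro a ha
    have e1 : (Fintype.card β : ℝ) ≤ (d1 (crs A U1 U2) a : ℝ) + U2.card + m1 A0 univ a
        + d1 (A0 \ A) a := by
      exact_mod_cast li1 A0 A U1 U2 a ha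
    have e2 : (Fintype.card γ : ℝ) ≤ (d2 (crs C U3 U1) a : ℝ) + U3.card + m2 C0 univ a
        + d2 (C0 \ C) a := by
      exact_mod_cast li2 C0 C U3 U1 a ha
    have e3 : (d1 (crs A U1 U2) a : ℝ) ≤ Fintype.card β := by exact_mod_cast un1 _ a
    have e4 : (d2 (crs C U3 U1) a : ℝ) ≤ Fintype.card γ := by exact_mod_cast un2 _ a
    rw [h.nβ] at e1 e3
    rw [h.nγ] at e2 e4
    rw [h.c2] at e1
    rw [h.c3] at e2
    have f1 := (h.near.1.1 a (mem_univ a)).2
    have f2 := (h.near.2.2.2 a (mem_univ a)).2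
    have f3 := h.smA.1 a
    have f4 := h.smC.2 a
    constructor
    · linarith
    · linarith

end Pool.Agent.Helper82.IA38
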